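import Mathlib

/-!
# Combinatorial maps: vertex sets, boundaries, 3-edge-connectivity, planarity

Darts `D`, rotation `σ` (vertices = orbits of `σ`), edge involution `α`, face permutation
`φ = σ α`.  Vertex sets are represented by `σ`-invariant sets of darts.
-/

set_option autoImplicit false
set_option linter.unusedSectionVars false
set_option linter.style.haveILetI false

namespace Pool.Agent.Lib.PLG

open Finset

/-- a combinatorial map on the set `D` of darts -/
structure CM (D : Type*) where
  σ : Equiv.Perm D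
  α : Equiv.Perm D
  αα : ∀ d, α (α d) = d
  αne : ∀ d, α d ≠ d

namespace CM

variable {D : Type*} (G : CM D)

/-- the face permutation -/
def φ : Equiv.Perm D := G.σ * G.α

lemma φ_apply (d : D) : G.φ d = G.σ (G.α d) := rfl

/-- every vertex has degree 3 -/
def Cub : Prop := ∀ d, G.σ (G.σ (G.σ d)) = d ∧ G.σ d ≠ d

/-- two darts lie on the same face -/
abbrev SF (d e : D) : Prop := G.φ.SameCycle d e

variable [Fintype D] [DecidableEq D]

/-- `S` is a union of vertices -/
def IsV (S : Finset D) : Prop := ∀ d, G.σ d ∈ S ↔ d ∈ S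

/-- the darts of `S` whose edge leaves `S` -/
def bd (S : Finset D) : Finset D := S.filter (fun d => G.α d ∉ S)

/-- number of darts of `S` whose other end lies in `T` -/
def cr (S T : Finset D) : ℕ := (S.filter (fun d => G.α d ∈ T)).card

/-- 3-edge-connected -/
def TEC : Prop := ∀ S : Finset D, G.IsV S → S.Nonempty → S ≠ univ → 3 ≤ (G.bd S).card

/-- planarity in homological form: a set of edges meeting every face an even number of times is a
cut -/
def PL : Prop := ∀ c : D → ZMod 2, (∀ d, c (G.α d) = c d) →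
  (∀ d, ∑ e ∈ univ.filter (fun e => G.SF d e), c e = 0) →
  ∃ y : D → ZMod 2, (∀ d, y (G.σ d) = y d) ∧ ∀ d, c d = y d + y (G.α d)

variable {G}

lemma IsV.compl {S : Finset D} (h : G.IsV S) : G.IsV Sᶜ := by
  intro d
  simp only [mem_compl, h d]

lemma IsV.union {S T : Finset D} (h : G.IsV S) (h' : G.IsV T) : G.IsV (S ∪ T) := by
  intro d
  simp only [mem_union, h d, h' d]

lemma IsV.inter {S T : Finset D} (h : G.IsV S) (h' : G.IsV T) : G.IsV (S ∩ T) := by
  intro d
  simp only [mem_inter, h d, h' d]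

lemma IsV.sdiff {S T : Finset D} (h : G.IsV S) (h' : G.IsV T) : G.IsV (S \ T) := by
  intro d
  simp only [mem_sdiff, h d, h' d]

lemma isV_univ : G.IsV univ := by intro d; simp

lemma isV_empty : G.IsV ∅ := by intro d; simp

variable (G)

lemma mem_bd {S : Finset D} {d : D} : d ∈ G.bd S ↔ d ∈ S ∧ G.α d ∉ S := by simp [bd]

lemma bd_card (S : Finset D) : (G.bd S).card = G.cr S Sᶜ := by
  unfold bd cr
  congr 1
  ext d
  simp

lemma cr_comm (S T : Finset D) : G.cr S T = G.cr T S := by
  unfold cr
  refine card_bij (fun d _ => G.α d) ?_ ?_ ?_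
  · intro d hd
    rw [mem_filter] at hd ⊢
    exact ⟨hd.2, by rw [G.αα]; exact hd.1⟩
  · intro a _ b _ h
    exact G.α.injective h
  · intro b hb
    rw [mem_filter] at hb
    exact ⟨G.α b, by rw [mem_filter, G.αα]; exact ⟨hb.2, hb.1⟩, G.αα b⟩

lemma cr_union_left {S S' : Finset D} (h : Disjoint S S') (T : Finset D) :
    G.cr (S ∪ S') T = G.cr S T + G.cr S' T := by
  unfold cr
  rw [filter_union, card_union_of_disjoint]
  exact disjoint_filter_filter h

lemma cr_union_right (S : Finset D) {T T' : Finset D} (h : Disjoint T T') :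
    G.cr S (T ∪ T') = G.cr S T + G.cr S T' := by
  rw [cr_comm, cr_union_left G h, cr_comm G T, cr_comm G T']

lemma bd_compl_card (S : Finset D) : (G.bd Sᶜ).card = (G.bd S).card := by
  rw [bd_card, bd_card, compl_compl, cr_comm]

lemma card_eq (S : Finset D) : S.card = (G.bd S).card + G.cr S S := by
  unfold bd cr
  rw [← card_filter_add_card_filter_not (s := S) (fun d => G.α d ∉ S)]
  simp

lemma even_cr_self (S : Finset D) : Even (G.cr S S) := by
  classical
  have hmem : ∀ x : D, (x ∈ S.filter (fun d => G.α d ∈ S)) ↔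
      (G.α x ∈ S.filter (fun d => G.α d ∈ S)) := by
    intro x
    rw [mem_filter, mem_filter, G.αα]
    exact and_comm
  let τ : Equiv.Perm {x // x ∈ S.filter (fun d => G.α d ∈ S)} :=
    (G.α).subtypePerm (fun x => (hmem x).symm)
  by_contra hne
  have hnd : ¬ 2 ∣ Fintype.card {x // x ∈ S.filter (fun d => G.α d ∈ S)} := by
    rw [Fintype.card_coe]
    intro h
    exact hne (even_iff_two_dvd.2 h)
  have h1 : τ ^ (2 ^ 1) = 1 := by
    ext x
    simp only [pow_one, sq, Equiv.Perm.mul_apply, Equiv.Perm.one_apply, τ,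
      Equiv.Perm.subtypePerm_apply]
    exact G.αα _
  haveI : Fact (Nat.Prime 2) := ⟨Nat.prime_two⟩
  obtain ⟨a, ha⟩ := Equiv.Perm.exists_fixed_point_of_prime hnd h1
  have := congrArg Subtype.val ha
  simp only [τ, Equiv.Perm.subtypePerm_apply] at this
  exact G.αne _ this

variable {G}

lemma Cub.three_dvd (hc : G.Cub) {S : Finset D} (hS : G.IsV S) : 3 ∣ S.card := by
  classical
  let τ : Equiv.Perm {x // x ∈ S} := (G.σ).subtypePerm (fun x => hS x)
  by_contra hnd
  rw [← Fintype.card_coe] at hnd
  have h1 : τ ^ (3 ^ 1) = 1 := by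
    ext x
    have : τ ^ (3 ^ 1) = τ * (τ * τ) := by
      rw [pow_one, pow_succ, sq, mul_assoc]
    rw [this]
    simp only [Equiv.Perm.mul_apply, Equiv.Perm.one_apply, τ, Equiv.Perm.subtypePerm_apply]
    exact (hc _).1
  haveI : Fact (Nat.Prime 3) := ⟨Nat.prime_three⟩
  obtain ⟨a, ha⟩ := Equiv.Perm.exists_fixed_point_of_prime hnd h1
  have := congrArg Subtype.val ha
  simp only [τ, Equiv.Perm.subtypePerm_apply] at this
  exact (hc _).2 this

/-- number of vertices of a vertex set -/
def nv (S : Finset D) : ℕ := S.card / 3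

lemma Cub.card_nv (hc : G.Cub) {S : Finset D} (hS : G.IsV S) : S.card = 3 * nv S :=
  (Nat.mul_div_cancel' (hc.three_dvd hS)).symm

lemma nv_union (hc : G.Cub) {S T : Finset D} (hS : G.IsV S) (hT : G.IsV T) (h : Disjoint S T) :
    nv (S ∪ T) = nv S + nv T := by
  have h1 := card_union_of_disjoint h
  have h2 := hc.card_nv hS
  have h3 := hc.card_nv hT
  have h4 := hc.card_nv (hS.union hT)
  omega

lemma nv_mono {S T : Finset D} (h : S ⊆ T) : nv S ≤ nv T :=
  Nat.div_le_div_right (card_le_card h)

lemma nv_pos (hc : G.Cub) {S : Finset D} (hS : G.IsV S) : 0 < nv S ↔ S.Nonempty := by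
  have := hc.card_nv hS
  rw [← card_pos]
  omega

/-- the boundary has the parity of the number of vertices -/
lemma Cub.bd_parity (hc : G.Cub) {S : Finset D} (hS : G.IsV S) :
    (G.bd S).card % 2 = nv S % 2 := by
  have h1 := G.card_eq S
  have h2 := hc.card_nv hS
  obtain ⟨m, hm⟩ := G.even_cr_self S
  omega

lemma bd_le (hc : G.Cub) {S : Finset D} (hS : G.IsV S) : (G.bd S).card ≤ 3 * nv S := by
  have h1 := G.card_eq S
  have h2 := hc.card_nv hS
  omega

/-- boundaries of the union of two disjoint sets -/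
lemma bd_union (S T : Finset D) (h : Disjoint S T) :
    (G.bd (S ∪ T)).card + 2 * G.cr S T = (G.bd S).card + (G.bd T).card := by
  rw [bd_card, bd_card, bd_card, cr_union_left G h]
  have e1 : Sᶜ = (S ∪ T)ᶜ ∪ T := by
    ext x
    simp only [mem_union, mem_compl]
    have hx : x ∈ S → x ∉ T := fun hh => Finset.disjoint_left.1 h hh
    tauto
  have e2 : Tᶜ = (S ∪ T)ᶜ ∪ S := by
    ext x
    simp only [mem_union, mem_compl]
    have hx : x ∈ S → x ∉ T := fun hh => Finset.disjoint_left.1 h hh
    tauto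
  have d1 : Disjoint (S ∪ T)ᶜ T := by
    rw [Finset.disjoint_left]
    intro x hx hx'
    rw [mem_compl] at hx
    exact hx (mem_union_right _ hx')
  have d2 : Disjoint (S ∪ T)ᶜ S := by
    rw [Finset.disjoint_left]
    intro x hx hx'
    rw [mem_compl] at hx
    exact hx (mem_union_left _ hx')
  have h1 : G.cr S Sᶜ = G.cr S (S ∪ T)ᶜ + G.cr S T := by
    conv_lhs => rw [e1]
    exact cr_union_right G S d1
  have h2 : G.cr T Tᶜ = G.cr T (S ∪ T)ᶜ + G.cr S T := by
    conv_lhs => rw [e2]
    rw [cr_union_right G T d2, cr_comm G T S]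
  omega

end CM

end Pool.Agent.Lib.PLG
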